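import Pool.Agent.H5.RPG.Stmts

set_option autoImplicit false

namespace Pool.RPG

open Filter TMLib Pool.PG

/-- Row `MAI`: the theorem, with `A g = lab (cmp g)`. -/
theorem mai_thm (hSND : SNDStmt) (hPTM : PTMStmt) (hCMB : CMBStmt) (hCNT : CNTStmt)
    (hBOT : Pool.PG.BOTStmt) (hCMW : Pool.PG.CMWStmt) : MAIStmt := by
  classical
  refine ⟨fun g => lab (cmp g), hBOT.1 (List Bool) lab hPTM.2.2.2.2, ?_, ?_⟩
  · intro g hg hne
    obtain ⟨hv, hw⟩ := hCMW g hg
    have hlen : (Pool.PG.cmp g).length = g.length := by simp [Pool.PG.cmp]
    obtain ⟨h1, h2⟩ := hSND (cmp g) hv hne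
    refine ⟨h1.trans hlen, fun v hvl => ?_⟩
    exact (hw v hvl _).1 (h2 v (by rw [hlen]; exact hvl))
  · intro δ d hδ hd
    obtain ⟨C, hC0, hC⟩ := hCNT δ d hδ hd
    refine ⟨C, fun n o p h1 h2 => ?_⟩
    rcases Nat.eq_zero_or_pos n with hn | hn
    · subst hn
      have : (0 : ℝ) ≤ C * ((0 : ℕ) : ℝ) ^ (d * 0) := by
        apply mul_nonneg hC0; positivity
      simpa using this
    · have key := hC n o (fun v => decide (Even (p v))) ?_
      · have e : (Finset.univ.filter fun s : Fin n → Fin d → Fin n =>
            lab (cmp (arena o p s)) = []) =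
            (Finset.univ.filter fun s : Fin n → Fin d → Fin n =>
              Fail o (fun v => decide (Even (p v))) s) := by
          ext s
          simp only [Finset.mem_filter, Finset.mem_univ, true_and]
          exact hCMB n d o p s hn
        have e2 : (Finset.univ.filter fun s : Fin n → Fin d → Fin n =>
            lab (cmp (arena o p s)) = []).card =
            (Finset.univ.filter fun s : Fin n → Fin d → Fin n =>
              Fail o (fun v => decide (Even (p v))) s).card := by rw [e]
        simp only []
        rw [e2]
        exact key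
      · intro i
        cases i
        · refine h2.trans (le_of_eq ?_)
          congr 2
          ext v
          simp
        · refine h1.trans (le_of_eq ?_)
          congr 2
          ext v
          simp

end Pool.RPG
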